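import Pool.Agent.Helper21.MT8.Stmts
import Pool.Agent.Helper35.MT7.FUL7
import Pool.Agent.Helper43.MU.Sub

/-!
# SI8 and FUL8: strong irreducibility, and the Lie algebra of the image of an open subgroup
-/

set_option autoImplicit false

open NumberField MU Matrix

namespace MT

/-- SI8: strong irreducibility in terms of subspaces (from IRR8). -/
def ST_SI8 : Prop :=
  ∀ (F : Type) [Field F] [NumberField F] (S : Finset ℕ), (∀ p ∈ S, p.Prime) →
    ∀ (n w : ℕ) (h : Fin n → ℕ) (M : QMot F S n w h) (l : ℕ) [Fact l.Prime], M.Amp8 l →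
      SIrr (M.ρ l).range

/-- the translates of a subspace under a matrix representation -/
private def tr {G K : Type} [Group G] [Field K] {n : ℕ} (r : G →* Matrix (Fin n) (Fin n) K)
    (U : Submodule K (Fin n → K)) (g : G) : Submodule K (Fin n → K) :=
  U.map (Matrix.mulVecLin (r g))

private theorem tr_one {G K : Type} [Group G] [Field K] {n : ℕ}
    (r : G →* Matrix (Fin n) (Fin n) K) (U : Submodule K (Fin n → K)) : tr r U 1 = U := by
  unfold tr
  rw [map_one, Matrix.mulVecLin_one, Submodule.map_id]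

private theorem tr_mul {G K : Type} [Group G] [Field K] {n : ℕ}
    (r : G →* Matrix (Fin n) (Fin n) K) (U : Submodule K (Fin n → K)) (g g' : G) :
    tr r U (g * g') = (tr r U g').map (Matrix.mulVecLin (r g)) := by
  unfold tr
  rw [map_mul, Matrix.mulVecLin_mul, Submodule.map_comp]

/-- the stabiliser of a subspace -/
private def stb {G K : Type} [Group G] [Field K] {n : ℕ} (r : G →* Matrix (Fin n) (Fin n) K)
    (U : Submodule K (Fin n → K)) : Subgroup G where
  carrier := {g | tr r U g = U}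
  one_mem' := tr_one r U
  mul_mem' := by
    intro a b ha hb
    change tr r U (a * b) = U
    rw [tr_mul, show tr r U b = U from hb]
    exact ha
  inv_mem' := by
    intro a ha
    change tr r U a⁻¹ = U
    have h1 : tr r U (a⁻¹ * a) = tr r U a⁻¹ := by
      rw [tr_mul, show tr r U a = U from ha]
      rfl
    rw [← h1, inv_mul_cancel, tr_one]

private theorem mem_stb {G K : Type} [Group G] [Field K] {n : ℕ}
    (r : G →* Matrix (Fin n) (Fin n) K) (U : Submodule K (Fin n → K)) (g : G) :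
    g ∈ stb r U ↔ ∀ v ∈ U, (r g).mulVec v ∈ U := by
  constructor
  · intro hg v hv
    have h1 : (r g).mulVec v ∈ tr r U g := ⟨v, hv, rfl⟩
    rwa [show tr r U g = U from hg] at h1
  · intro hg
    change U.map (Matrix.mulVecLin (r g)) = U
    have hle : U.map (Matrix.mulVecLin (r g)) ≤ U := by
      rintro _ ⟨v, hv, rfl⟩
      exact hg v hv
    have hinj : Function.Injective (Matrix.mulVecLin (r g)) := by
      intro v w hvw
      have h2 : (r g⁻¹).mulVec ((r g).mulVec v) = (r g⁻¹).mulVec ((r g).mulVec w) :=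
        congrArg _ hvw
      rwa [Matrix.mulVec_mulVec, Matrix.mulVec_mulVec, ← map_mul, inv_mul_cancel, map_one,
        Matrix.one_mulVec, Matrix.one_mulVec] at h2
    exact Submodule.eq_of_le_of_finrank_eq hle
      (LinearEquiv.finrank_eq (Submodule.equivMapOfInjective _ hinj U)).symm

private theorem stb_finite {G K : Type} [Group G] [Field K] {n : ℕ}
    (r : G →* Matrix (Fin n) (Fin n) K) (U : Submodule K (Fin n → K))
    (hU : (Set.range (tr r U)).Finite) : (stb r U).FiniteIndex := by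
  have : Finite (Set.range (tr r U)) := hU
  have : Finite (G ⧸ stb r U) := by
    let f : G ⧸ stb r U → Set.range (tr r U) := fun q =>
      ⟨tr r U q.out, ⟨q.out, rfl⟩⟩
    refine Finite.of_injective f ?_
    intro q q' hq
    have h1 : tr r U q.out = tr r U q'.out := congrArg Subtype.val hq
    rw [← QuotientGroup.out_eq' q, ← QuotientGroup.out_eq' q', QuotientGroup.eq]
    change tr r U (q.out⁻¹ * q'.out) = U
    rw [tr_mul, ← h1, ← tr_mul, inv_mul_cancel, tr_one]
  exact Subgroup.finiteIndex_of_finite_quotient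

theorem st_SI8 (h7 : ST_IRR8) : ST_SI8 := by
  intro F _ _ S hS n w h M l _ hA U hfin
  have hfin' : (Set.range (tr (mat (M.ρ l)) U)).Finite := by
    refine hfin.subset ?_
    rintro _ ⟨g, rfl⟩
    exact ⟨M.ρ l g, ⟨g, rfl⟩, rfl⟩
  have hFI := stb_finite (mat (M.ρ l)) U hfin'
  have hcl : IsClosed (stb (mat (M.ρ l)) U : Set (Gal F)) := by
    have h1 : (stb (mat (M.ρ l)) U : Set (Gal F)) =
        ⋂ v ∈ U, {g | (mat (M.ρ l) g).mulVec v ∈ U} := by
      ext g
      rw [SetLike.mem_coe, mem_stb]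
      simp only [Set.mem_iInter, Set.mem_ofPred_eq]
    rw [h1]
    refine isClosed_biInter fun v _ => ?_
    have hUc : IsClosed (U : Set (Fin n → ℚ_[l])) := Submodule.closed_of_finiteDimensional U
    refine hUc.preimage (f := fun g => (mat (M.ρ l) g).mulVec v) ?_
    have h2 : Continuous fun g => mat (M.ρ l) g :=
      Units.continuous_val.comp (M.continuous l)
    exact Continuous.matrix_mulVec h2 continuous_const
  have hop : IsOpen (stb (mat (M.ρ l)) U : Set (Gal F)) :=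
    Subgroup.isOpen_of_isClosed_of_finiteIndex _ hcl
  exact irr_stable (h7 F S hS n w h M l hA.2 _ hop) U fun g v hv =>
    (mem_stb (mat (M.ρ l)) U (g : Gal F)).mp g.2 v hv

/-- FUL8: the Lie algebra is large. -/
theorem st_FUL8 (irr8 : ST_IRR8) (clif8 : ST_CLIF8) (log7 : ST_LOG7) (zar : ST_ZAR) (ps1 : ST_PS1)
    (ps2 : ST_PS2) (hcyc : ST_CYC) : ST_FUL8 := by
  intro F _ _ S hS n w h M l _ hn hM hg H hH A hA
  have si8 := st_SI8 irr8
  obtain ⟨g, hg⟩ := hg
  obtain ⟨H₁, hle, hnor, hopen, e, he, hHe⟩ := exists_core H hH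
  set ψ : Matrix (Fin n) (Fin n) ℚ_[l] := bas ℚ_[l] M.ψ with hψ
  have hdet : ψ.det ≠ 0 := bas_det _ _ M.ψ_det
  have hu : IsUnit ψ := (Matrix.isUnit_iff_isUnit_det _).2 (isUnit_iff_ne_zero.2 hdet)
  have hsym := bas_sym' ℚ_[l] M.ψ w M.ψ_sym
  have hsim : ∀ s : Gal F, ∃ c : ℚ_[l], (mat (M.ρ l) s).transpose * ψ * mat (M.ρ l) s = c • ψ :=
    fun s => ⟨_, M.toPMot.gal_sim l s⟩
  have hcoe : ∀ x : Gal F, ((M.ρ l x : Matrix.GeneralLinearGroup (Fin n) ℚ_[l]) :
      Matrix (Fin n) (Fin n) ℚ_[l]) = mat (M.ρ l) x := fun _ => rfl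
  set X := H₁.map (M.ρ l) with hX
  have hXH : X ≤ H.map (M.ρ l) := Subgroup.map_mono hle
  obtain ⟨zbr, zad, -, -, -⟩ := zar ℚ_[l] n X
  set a : Submodule ℚ_[l] (Matrix (Fin n) (Fin n) ℚ_[l]) := LieZ X ⊓ skew ψ with ha
  have hbr : ∀ A ∈ a, ∀ B ∈ a, A * B - B * A ∈ a := by
    intro A hA B hB
    exact ⟨zbr A hA.1 B hB.1, skew_br ψ A B hA.2 hB.2⟩
  have hconj : ∀ x ∈ (M.ρ l).range, ∀ A ∈ a, (x : Matrix (Fin n) (Fin n) ℚ_[l]) * A *
      ((x⁻¹ : Matrix.GeneralLinearGroup (Fin n) ℚ_[l]) : Matrix (Fin n) (Fin n) ℚ_[l]) ∈ a := by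
    rintro _ ⟨s, rfl⟩ A hA
    refine ⟨zad (M.ρ l s) ?_ A hA.1, ?_⟩
    · intro x hx
      obtain ⟨r, hr, rfl⟩ := Subgroup.mem_map.mp hx
      rw [← map_inv, ← map_mul, ← map_mul]
      exact Subgroup.mem_map_of_mem _ (hnor.conj_mem r hr s)
    · obtain ⟨c, hc⟩ := hsim s
      refine skew_conj ψ _ _ A c hc ?_ hA.2
      rw [← Units.val_mul, mul_inv_cancel, Units.val_one]
  -- the monodromy operator
  obtain ⟨N, hNa, hN0, hNn⟩ : ∃ N ∈ a, N ≠ 0 ∧ IsNilpotent N := by
    obtain ⟨⟨p, 𝔓, μ, hp, hpl, h𝔓, ⟨τ, hτ, hτr, -⟩, i₀, hi₀, hi₂⟩, -⟩ := hM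
    have hle : ∀ i ∈ μ, i ≤ n := by
      intro i hi
      have h1 := hτr 0
      rw [pow_zero, Matrix.rank_one, Fintype.card_fin] at h1
      rw [h1]
      simp only [Nat.sub_zero, Multiset.map_id']
      exact Multiset.le_sum_of_mem hi
    have hzero : (μ.map fun i => i - n).sum = 0 := by
      apply Multiset.sum_eq_zero
      intro x hx
      obtain ⟨i, hi, rfl⟩ := Multiset.mem_map.mp hx
      exact Nat.sub_eq_zero_of_le (hle i hi)
    have hnil : (mat (M.ρ l) τ - 1) ^ n = 0 := by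
      apply ful_zero_of_rank
      rw [hτr, hzero]
    have hrk := ful_rank_pow (mat (M.ρ l) τ) hnil e he
    have hpow : ∀ k : ℕ, ((mat (M.ρ l) (τ ^ e) - 1) ^ k).rank = (μ.map fun i => i - k).sum := by
      intro k
      rw [map_pow, hrk, hτr]
    have hnil' : (mat (M.ρ l) (τ ^ e) - 1) ^ n = 0 := by
      apply ful_zero_of_rank
      rw [hpow, hzero]
    obtain ⟨N, hN, hN1, -, hN2⟩ := log7 ℚ_[l] n X (M.ρ l (τ ^ e))
      (Subgroup.mem_map_of_mem _ (hHe τ)) hnil'
    have hcyc1 : ((cyc l F τ : ℤ_[l]ˣ) : ℤ_[l]) = 1 := by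
      have := hcyc F F l p hp hpl 𝔓 h𝔓 0 τ (by rw [pow_zero]; exact hτ)
      rw [this, pow_zero]
    have hcyce : (((cyc l F (τ ^ e) : ℤ_[l]ˣ) : ℤ_[l]) : ℚ_[l]) = 1 := by
      rw [map_pow, Units.val_pow_eq_pow_val, hcyc1, one_pow, PadicInt.coe_one]
    refine ⟨N, ⟨hN, hN2 ψ ?_⟩, ?_, n, ?_⟩
    · have h1 := M.ψ_gal l (τ ^ e)
      rw [hcyce, one_pow, one_smul] at h1
      exact h1
    · intro h0
      have h1 := (hN1 1).trans (hpow 1)
      rw [h0, pow_one, Matrix.rank_zero] at h1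
      have h2 : i₀ - 1 ≤ (μ.map fun i => i - 1).sum :=
        Multiset.le_sum_of_mem (Multiset.mem_map_of_mem (fun i => i - 1) hi₀)
      omega
    · apply ful_zero_of_rank
      exact ((hN1 n).trans (hpow n)).trans hzero
  have hirr := clif8 ℚ_[l] n (M.ρ l).range a N (si8 F S hS n w h M l hM) hconj
    ⟨_, ⟨g, rfl⟩, hg⟩ hNa hN0 hNn
  -- the pseudo-reflection
  obtain ⟨c, hc⟩ := hsim g
  have hc1 : c = 1 := ful_mult hn ψ _ hu c hc hg
  rw [hc1, one_smul] at hc
  have key : A ∈ a := by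
    rcases hsym with ⟨-, hodd⟩ | ⟨-, heven⟩
    · obtain ⟨v, u, hv, huu, hvu⟩ := ful_rank_one _ hg
      have hg1 : mat (M.ρ l) g = 1 + vecMulVec v u := by rw [← hvu]; abel
      rw [hg1] at hc
      obtain ⟨d, hd, hd2⟩ := Psr.transvection_of hodd hu hv huu hc
      have hXX : Psr.XX ψ v * Psr.XX ψ v = 0 := by
        unfold Psr.XX
        rw [Psr.vmv_mul_vmv, Psr.pf_eq, Psr.self_zero hodd, zero_smul]
      set R : Matrix (Fin n) (Fin n) ℚ_[l] := mat (M.ρ l) g - 1 with hR
      have hR1 : R = d • Psr.XX ψ v := by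
        rw [hR, hg1, hd2, add_sub_cancel_left]
      have hRR : R * R = 0 := by
        rw [hR1, smul_mul_smul_comm, hXX, smul_zero]
      have hpow : ∀ k : ℕ, mat (M.ρ l) g ^ k = 1 + (k : ℚ_[l]) • R := by
        intro k
        have hg2 : mat (M.ρ l) g = 1 + R := by rw [hR]; abel
        induction k with
        | zero => simp
        | succ k ih =>
          rw [pow_succ, ih, hg2, add_mul, one_mul, smul_mul_assoc, mul_add, mul_one, hRR, add_zero]
          push_cast
          rw [add_smul, one_smul]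
          abel
      have hge : mat (M.ρ l) (g ^ e) - 1 = (e : ℚ_[l]) • R := by
        rw [map_pow, hpow, add_sub_cancel_left]
      have hsq : (mat (M.ρ l) (g ^ e) - 1) ^ 2 = 0 := by
        rw [hge, pow_two, smul_mul_smul_comm, hRR, smul_zero]
      have hnil : (mat (M.ρ l) (g ^ e) - 1) ^ n = 0 := by
        obtain ⟨k, hk⟩ : ∃ k : ℕ, n = k + 2 := ⟨n - 2, by omega⟩
        have h3 : ∀ B : Matrix (Fin n) (Fin n) ℚ_[l], B ^ 2 = 0 → ∀ j, j = k + 2 → B ^ j = 0 := by
          rintro B hB j rfl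
          rw [pow_add, hB, mul_zero]
        exact h3 _ hsq n hk
      obtain ⟨T, hT, -, hT1, hT2⟩ := log7 ℚ_[l] n X (M.ρ l (g ^ e))
        (Subgroup.mem_map_of_mem _ (hHe g)) hnil
      have hT3 : T = (e : ℚ_[l]) • R := (hT1 hsq).trans hge
      have hisog : (mat (M.ρ l) (g ^ e)).transpose * ψ * mat (M.ρ l) (g ^ e) = ψ := by
        have hg3 : (mat (M.ρ l) g).transpose * ψ * mat (M.ρ l) g = ψ := by rw [hg1]; exact hc
        have : ∀ k : ℕ, (mat (M.ρ l) (g ^ k)).transpose * ψ * mat (M.ρ l) (g ^ k) = ψ := by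
          intro k
          induction k with
          | zero => simp
          | succ k ih =>
            rw [pow_succ, map_mul, Matrix.transpose_mul]
            have e1 : (mat (M.ρ l) g).transpose * (mat (M.ρ l) (g ^ k)).transpose * ψ *
                (mat (M.ρ l) (g ^ k) * mat (M.ρ l) g) = (mat (M.ρ l) g).transpose *
                ((mat (M.ρ l) (g ^ k)).transpose * ψ * mat (M.ρ l) (g ^ k)) *
                mat (M.ρ l) g := by
              simp only [mul_assoc]
            rw [e1, ih, hg3]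
        exact this e
      have hTs : T.transpose * ψ + ψ * T = 0 := hT2 ψ hisog
      refine ps1 ℚ_[l] n ψ T a (M.ρ l).range hdet hodd hbr (si8 F S hS n w h M l hM) ?_ hconj
        ⟨hT, hTs⟩ hTs ?_ A hA
      · rintro _ ⟨s, rfl⟩
        exact hsim s
      · have he0 : (e : ℚ_[l]) ≠ 0 := Nat.cast_ne_zero.mpr (by omega)
        rw [hT3, Matrix.rank_smul_of_mem_nonZeroDivisors _ (mem_nonZeroDivisors_of_ne_zero he0)]
        exact hg
    · exact ps2 ℚ_[l] n ψ (M.ρ l g) a hdet heven hbr (fun A hA => hA.2) hirr hc hg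
        (hconj _ ⟨g, rfl⟩) A hA
  exact ful_mono hXH key.1

end MT
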